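import Mathlib
import Pool.Agent.H765.ST.Cls

/-! The coloured Jones polynomials, through their Vassiliev coefficients, classify the twisted
Whitehead doubles of all graph knots. The only coincidences are the unknot, as the untwisted
double of the unknot, and the figure eight knot, as the double of the unknot with twist and clasp
of opposite signs. -/

open Pool.Agent.H765.ST Pool.Agent.H765.GK in
theorem Pool.Agent.Results.MP_31fd3b_gt.DoublesOfGraphKnots.result {m m' ε ε' : ℤ}
    (hε : ε = 1 ∨ ε = -1) (hε' : ε' = 1 ∨ ε' = -1) (K K' : GraphKnot) :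
    (∀ N n : ℕ, PowerSeries.coeff n (doubleJ m ε (colouredJones K) N) =
      PowerSeries.coeff n (doubleJ m' ε' (colouredJones K') N)) ↔
      (Isotopic K K' ∧ m = m' ∧ ε = ε') ∨
      (Isotopic K GraphKnot.unknot ∧ Isotopic K' GraphKnot.unknot ∧
        ((m = 0 ∧ m' = 0) ∨ (m = -ε ∧ m' = -ε'))) := by
  rw [← double_graph hε hε' K K']
  exact ⟨fun h N => PowerSeries.ext fun n => h N n, fun h N n => by rw [h N]⟩
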