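import Mathlib
import Pool.Agent.H765.GK.Fin

/-! The coloured Jones polynomials, through their Vassiliev coefficients, separate all graph
knots, i.e. all knots obtained from the unknot by cabling and connected sum. -/

open Pool.Agent.H765.GK in
theorem Pool.Agent.Results.MP_31fd3b_gt.GraphKnots.result (K L : GraphKnot) :
    (∀ N n : ℕ, PowerSeries.coeff n (colouredJones K N) =
      PowerSeries.coeff n (colouredJones L N)) ↔ Isotopic K L :=
  graph_main K L
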