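import Pool.Agent.H756.RV.FinV

/-!
# One Vassiliev invariant separates almost all pairs of random polygons

Library (`Pool.Graph.R_seed8.H832R2.JR.Defs`): `GaussWord N = (Fin N × Bool ≃ Fin (2 * N))` is a Gauss word (or
a chord diagram) with `N` letters: `G (c, b)` is the place of the passage `(c, b)` of the crossing `c` when
one travels once along the knot.

`Pool.Agent.H756.RP`: `Pt = ℝ × ℝ × ℝ`; a closed polygon is given by its vertices `p : Fin n → Pt`; `nx i` is
the vertex after the vertex `i`, `ept p i s` the point with the parameter `s` on the edge from `i` to `nx i`,
`det p i j` the determinant of the projections `(x, y, z) ↦ (x, y)` of the edges `i` and `j`.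

`Pool.Agent.H756.RV`:

* `IsDiagram p G o w`: the projection of the closed polygon `p` is the knot diagram with the Gauss word `G`,
  the signs `w` of the crossings and the upper passages `o` (`o c = true` iff `(c, false)` is the upper
  passage of the crossing `c`);
* `IsInvariant v`: the function `v` of closed polygons has the same value for polygons with the same
  diagram.  Every invariant of knots has this property (the knot is determined by the diagram);
* `change c τ u`: the signs (or upper passages) `u`, negated at the crossings `c j` with `τ j = false`;
* `HasChords G c D`: the `2 d` passages of the crossings `c j`, `j : Fin d`, are met in the order of the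
  letters of `D : GaussWord d`;
* `Symbol v D a`: whenever `c j`, `j : Fin d`, are positive crossings of a diagram with the chord diagram `D`, the
  alternating sum of `v` over the `2 ^ d` polygons `p τ`, in which the crossings `c j` with `τ j = false` are
  changed, is `a`.  That is, the extension of `v` by the Vassiliev skein relation has the value `a` on the
  singular knots with the chord diagram `D`.  For every invariant `v` of order at most `d` and every chord
  diagram `D` with `d` chords there is such an `a` (Vassiliev), and `v` is of order at most `d - 1` if and
  only if all of them are zero.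

Proof.  (1) With probability `1 - O(n ^ (-1/5))` there are, in each of `d` blocks of vertices, at least
`c n ^ (4/5)` vertices such that a small increase `δ` of the height of the vertex changes exactly one
crossing, with an edge in one of `d` further blocks; the `2 d` blocks are ordered as the letters of `D`.  The
uniform part of the law is preserved by the translation of the heights by `δ` modulo `1`, so one can
condition on everything except the choice `height` or `height + δ` for these vertices.  (2) The mixed
differences of `v` in directions from the `d` blocks are products of signs times `a`.  (3) A function on a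
cube with this property takes every value with a proportion at most `2 M ^ (-1/2^d)`, if `M` is the size of
the blocks (decoupling and the Littlewood-Offord inequality).  (4) For pairs condition on one of the
polygons.
-/

set_option autoImplicit false

namespace Pool.Agent.Results.MP_31fd3b_gt.RandomPairs

open MeasureTheory
open scoped ENNReal
open Pool.Agent.H832R2.JR (GaussWord)
open Pool.Agent.H756.RP (Pt)
open Pool.Agent.H756.RV (IsInvariant Symbol)

/-- Let `ρ` be a probability density in space such that `ρ (x, y, z) ≤ h (x, y)` for an integrable
function `h` and `ρ ≥ b > 0` on a nonempty open set, and let `d ≥ 2`.  There is a constant `C` such that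
for every Vassiliev invariant `v` of order at most `d` with values in an abelian group `A` whose value `a`
on the singular knots with some chord diagram `D` with `d` chords is of infinite order:

* for every `c ∈ A` and every `n ≥ 3` a random closed polygon with `n` independent vertices with the
  density `ρ` has `v = c` with probability at most `C n ^ (-4 / (5 * 2 ^ d))`;
* two independent random polygons with `m ≥ 3` and `n ≥ 3` vertices are not separated by `v` with
  probability at most `C (max m n) ^ (-4 / (5 * 2 ^ d))`. -/
theorem result (ρ : Pt → ℝ≥0∞) (hρ : Measurable ρ) (h1 : ∫⁻ q, ρ q = 1) (h : ℝ × ℝ → ℝ≥0∞)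
    (hh : Measurable h) (hfin : ∫⁻ q, h q ≠ ∞) (hle : ∀ q, ρ q ≤ h (q.1, q.2.1)) (U : Set Pt)
    (hU : IsOpen U) (hne : U.Nonempty) (b : ℝ≥0∞) (hb : b ≠ 0) (hbU : ∀ q ∈ U, b ≤ ρ q)
    (d : ℕ) (hd : 2 ≤ d) :
    ∃ C : ℝ, 0 < C ∧ ∀ (A : Type) [AddCommGroup A] (v : ∀ n, (Fin n → Pt) → A), IsInvariant v →
      ∀ (D : GaussWord d) (a : A), Symbol v D a → (∀ k : ℤ, k • a = 0 → k = 0) →
      (∀ n : ℕ, 3 ≤ n → ∀ c : A,
        (Measure.pi fun _ : Fin n => (volume : Measure Pt).withDensity ρ) {p | v n p = c} ≤
          ENNReal.ofReal (C * (n : ℝ) ^ (-(4 / (5 * 2 ^ d)) : ℝ))) ∧
      ∀ m n : ℕ, 3 ≤ m → 3 ≤ n →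
        ((Measure.pi fun _ : Fin m => (volume : Measure Pt).withDensity ρ).prod
          (Measure.pi fun _ : Fin n => (volume : Measure Pt).withDensity ρ))
          {z | v m z.1 = v n z.2} ≤
          ENNReal.ofReal (C * (max m n : ℝ) ^ (-(4 / (5 * 2 ^ d)) : ℝ)) :=
  Pool.Agent.H756.RV.finalV ρ hρ h1 h hh hfin hle U hU hne b hb hbU d hd

end Pool.Agent.Results.MP_31fd3b_gt.RandomPairs
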