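import Mathlib
import Pool.Agent.H765.ST.Closure

/-! Satellite operations are injective on coloured Jones functions: two knots `K` and `K'` have
the same coloured Jones polynomials as soon as their satellites `S(K)` and `S(K')` do, where `S` is
any composition of cablings, connected sums with given knots and Whitehead doublings (any twist,
any clasp), followed by a satellite operation with an arbitrary pattern of non-zero winding number.
Hence Vassiliev invariants separate `S(K)` and `S(K')` for graph knots `K`, `K'` that are not
isotopic. -/

open Pool.Agent.H765.ST Pool.Agent.H765.GK in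
theorem Pool.Agent.Results.MP_31fd3b_gt.Satellites.result {w : ℤ} (hw : w ≠ 0) (P : Pattern w)
    (W : List Op) :
    (∀ J J' : ℤ → PowerSeries ℚ, KnotFn J → KnotFn J' →
      ((∀ N : ℕ, P.sat (word W J) N = P.sat (word W J') N) ↔ J = J')) ∧
    (∀ K K' : GraphKnot,
      (∀ N : ℕ, P.sat (word W (colouredJones K)) N = P.sat (word W (colouredJones K')) N) ↔
        Isotopic K K') := by
  have h1 : ∀ J J' : ℤ → PowerSeries ℚ, KnotFn J → KnotFn J' →
      ((∀ N : ℕ, P.sat (word W J) N = P.sat (word W J') N) ↔ J = J') := by
    intro J J' h h'
    constructor
    · intro he
      have k := h.word W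
      have k' := h'.word W
      exact word_injective W h h' (sat_injective hw P k.odd k'.odd k.poly k'.poly he)
    · rintro rfl N
      rfl
  refine ⟨h1, fun K K' => ?_⟩
  rw [h1 _ _ (knotFn_graph K) (knotFn_graph K')]
  constructor
  · intro h
    apply (graph_main K K').mp
    intro N n
    rw [h]
  · exact fun h => h.colouredJones_eq
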